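import Pool.Agent.Helper37.MR.FamD

namespace Pool.Agent.Results.MP_87fd3e_gt.ChainPlats

open Pool.Helper37.MR

/-- Chains of two-bridge links. Consider the plat with `n` maxima of a braid word in rows. Cut the
maxima into consecutive blocks of one or two: `d i = true` says that the maxima `i` and `i + 1`
form a block of two. If every block of two satisfies `Block` and every column of twist regions
between two blocks satisfies `Column`, then the least number of meridians which generate the link
group is `n`, and `n` is the least number of maxima of a plat with the same group and the same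
meridians. -/
theorem result (n T : ℕ) (hn : 1 ≤ n) (hT : 1 ≤ T) (a b : ℕ → ℕ → ℤ) (d : ℕ → Bool)
    (hd : ∀ i, d i = true → ¬ d (i + 1) = true)
    (hb : ∀ i, i + 1 < n → d i = true → Block n T a b i)
    (hc : ∀ i, i + 1 < n → ¬ d i = true →
      Column T a b i (0 < i ∧ d (i - 1) = true) (i + 2 < n ∧ d (i + 1) = true)) :
    IsLeast (MerGen n (rows n a b T)) n ∧ IsLeast (PlatNum n (rows n a b T)) n :=
  have h := D.chain n T a b d hT hd hb hc
  ⟨h, D.platNum h (D.rows_pos n hn a b T)⟩

end Pool.Agent.Results.MP_87fd3e_gt.ChainPlats
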